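import Pool.Agent.Q232.CT.Lim

/-!
# Contact points of bodies of least lattice packing density

`LocMin dL K`: the convex body `K ⊂ ℝ³` is a local minimum of the lattice packing density `δ_L`
among the convex bodies contained in `K` and close to it; every body with `δ_L(K) = m_L` is one.

For such a body every extreme point `p` of `K` lies on a neighbour `K + u`, `u ≠ 0`, in a DENSEST
lattice packing of `K`. If moreover `K` is strictly convex, it has uncountably many densest packing
lattices.
-/

namespace Pool.Agent.Results.MP_3d065d_co.ContactPoints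

open Pool.Agent.TH219.DL Pool.Agent.Q232.CT
open Pool.Agent.H349R2.Tet (lat)

theorem result :
    (∀ K : Set (Fin 3 → ℝ), Body K → dL K = mn dL → LocMin dL K) ∧
    ∀ K : Set (Fin 3 → ℝ), Body K → LocMin dL K →
      (∀ p ∈ K.extremePoints ℝ, ∃ b : Fin 3 → (Fin 3 → ℝ),
        (LinearIndependent ℝ b ∧ IsPack K (famL b) ∧ den K (famL b) = dL K) ∧
        ∃ u ∈ lat b, u ≠ 0 ∧ p ∈ mem K (false, u)) ∧
      (StrictConvex ℝ K → ¬ (Densest K).Countable) := by
  refine ⟨fun K hK h => ⟨1, one_pos, fun A hA _ _ => ?_⟩, fun K hK hmin => ⟨fun p hp => ?_,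
    uncountable hK hmin⟩⟩
  · rw [h]
    exact iInf₂_le A hA
  · obtain ⟨b, hb, hbm, u, hu, hu0, hpu⟩ := contact hK hmin hp
    refine ⟨b, densest_of hK hb hbm, u, hu, hu0, p - u, hpu, ?_⟩
    simp

end Pool.Agent.Results.MP_3d065d_co.ContactPoints
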