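import Pool.Agent.Q232.CT.Dbl

/-!
# Contact points of bodies of least double lattice packing density

`LocMin dLs K`: the convex body `K ⊂ ℝ³` is a local minimum of `δ_{L*}` among the convex bodies
contained in `K` and close to it; every body with `δ_{L*}(K) = m_{L*}` is one.

For such a body every extreme point `p` of `K` lies on another member (a translate of `K` or of
`-K`) of a DENSEST packing `{(K ∪ (v - K)) + u : u ∈ Λ}`. If moreover `K` is strictly convex, there
are uncountably many such densest packings.
-/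

namespace Pool.Agent.Results.MP_3d065d_co.DoubleContactPoints

open Pool.Agent.TH219.DL Pool.Agent.Q232.CT

theorem result :
    (∀ K : Set (Fin 3 → ℝ), Body K → dLs K = mn dLs → LocMin dLs K) ∧
    ∀ K : Set (Fin 3 → ℝ), Body K → LocMin dLs K →
      (∀ p ∈ K.extremePoints ℝ, ∃ (v : Fin 3 → ℝ) (b : Fin 3 → (Fin 3 → ℝ)),
        (LinearIndependent ℝ b ∧ IsPack K (famLs v b) ∧ den K (famLs v b) = dLs K) ∧
        ∃ m ∈ famLs v b, m ≠ (false, 0) ∧ p ∈ mem K m) ∧
      (StrictConvex ℝ K → ¬ (DensestDouble K).Countable) := by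
  refine ⟨fun K hK h => ⟨1, one_pos, fun A hA _ _ => ?_⟩, fun K hK hmin =>
    ⟨fun p hp => touches hK hmin hp, uncountable' hK hmin⟩⟩
  rw [h]
  exact iInf₂_le A hA

end Pool.Agent.Results.MP_3d065d_co.DoubleContactPoints
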