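import Pool.Agent.Q232.CT.Diff

/-!
# Bodies of least translative or lattice packing density are extreme

Let `δ` be `δ_L` or `δ_T` and let the convex body `K ⊂ ℝ³` be a local minimum of `δ` (for instance
`δ(K) = m_L` or `m_T`). Then `K` is not the Minkowski mean of two bodies with the same difference
body, except of two translates of `K`. In particular, if `K = M + (T - T)`, then `T` is centrally
symmetric.

Proof: the bodies with the same difference body have densities proportional to their volumes, and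
by the Brunn-Minkowski inequality, with its equality case, one of the two bodies has a smaller
volume than `K`.
-/

namespace Pool.Agent.Results.MP_3d065d_co.ExtremeBodies

open scoped Pointwise ENNReal
open Pool.Agent.TH219.DL Pool.Agent.Q232.CT

theorem summand {δ : Set (Fin 3 → ℝ) → ℝ≥0∞} (hδ : Scale δ) {K M T : Set (Fin 3 → ℝ)}
    (hK : Body K) (h0 : δ K ≠ 0) (ht : δ K ≠ ∞) (hmin : LocalMin δ K)
    (hM : IsCompact M) (hMc : Convex ℝ M) (hT : IsCompact T) (hTc : Convex ℝ T)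
    (h : K = M + (T - T)) : ∃ z : Fin 3 → ℝ, T = (fun x => z - x) '' T := by
  obtain ⟨c, hc⟩ := hK.2.2
  have hcK := interior_subset hc
  have hMn : M.Nonempty := by
    rw [h] at hcK
    obtain ⟨m, hm, -⟩ := hcK
    exact ⟨m, hm⟩
  have hTn : IsCompact (-T) := hT.neg
  have hTnc : Convex ℝ (-T) := hTc.neg
  have hd : (M + (2 : ℝ) • T) - (M + (2 : ℝ) • T) =
      (M + (2 : ℝ) • (-T)) - (M + (2 : ℝ) • (-T)) := by
    apply Set.Subset.antisymm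
    · rintro _ ⟨_, ⟨m, hm, _, ⟨t, ht, rfl⟩, rfl⟩, _, ⟨m', hm', _, ⟨t', ht', rfl⟩, rfl⟩, rfl⟩
      refine ⟨m + (2 : ℝ) • (-t'), ⟨m, hm, _, ⟨-t', by simpa using ht', rfl⟩, rfl⟩,
        m' + (2 : ℝ) • (-t), ⟨m', hm', _, ⟨-t, by simpa using ht, rfl⟩, rfl⟩, ?_⟩
      show m + (2 : ℝ) • (-t') - (m' + (2 : ℝ) • (-t)) = m + (2 : ℝ) • t - (m' + (2 : ℝ) • t')
      module
    · rintro _ ⟨_, ⟨m, hm, _, ⟨t, ht, rfl⟩, rfl⟩, _, ⟨m', hm', _, ⟨t', ht', rfl⟩, rfl⟩, rfl⟩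
      refine ⟨m + (2 : ℝ) • (-t'), ⟨m, hm, _, ⟨-t', ht', rfl⟩, rfl⟩,
        m' + (2 : ℝ) • (-t), ⟨m', hm', _, ⟨-t, ht, rfl⟩, rfl⟩, ?_⟩
      show m + (2 : ℝ) • (-t') - (m' + (2 : ℝ) • (-t)) = m + (2 : ℝ) • t - (m' + (2 : ℝ) • t')
      module
  have hm : K = (1 / 2 : ℝ) • (M + (2 : ℝ) • T) + (1 / 2 : ℝ) • (M + (2 : ℝ) • (-T)) := by
    rw [h]
    apply Set.Subset.antisymm
    · rintro _ ⟨m, hm, _, ⟨t, ht, t', ht', rfl⟩, rfl⟩
      refine ⟨_, ⟨m + (2 : ℝ) • t, ⟨m, hm, _, ⟨t, ht, rfl⟩, rfl⟩, rfl⟩,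
        _, ⟨m + (2 : ℝ) • (-t'), ⟨m, hm, _, ⟨-t', by simpa using ht', rfl⟩, rfl⟩, rfl⟩, ?_⟩
      show (1 / 2 : ℝ) • (m + (2 : ℝ) • t) + (1 / 2 : ℝ) • (m + (2 : ℝ) • (-t')) = m + (t - t')
      module
    · rintro _ ⟨_, ⟨_, ⟨m, hm, _, ⟨t, ht, rfl⟩, rfl⟩, rfl⟩,
        _, ⟨_, ⟨m', hm', _, ⟨t', ht', rfl⟩, rfl⟩, rfl⟩, rfl⟩
      refine ⟨(1 / 2 : ℝ) • m + (1 / 2 : ℝ) • m', hMc hm hm' (by norm_num) (by norm_num)
        (by norm_num), _, ⟨t, ht, -t', ht', rfl⟩, ?_⟩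
      show (1 / 2 : ℝ) • m + (1 / 2 : ℝ) • m' + (t - -t') =
        (1 / 2 : ℝ) • (m + (2 : ℝ) • t) + (1 / 2 : ℝ) • (m' + (2 : ℝ) • t')
      module
  obtain ⟨w, h1, h2⟩ := main hδ hK (hM.add (hT.smul 2)) (hMc.add (hTc.smul 2))
    (hM.add (hTn.smul 2)) (hMc.add (hTnc.smul 2)) h0 ht hd hm hmin
  have e1 : M + (2 : ℝ) • T = M + (fun x => (2 : ℝ) • w - (2 : ℝ) • x) '' T := by
    rw [h1]
    apply Set.Subset.antisymm
    · rintro _ ⟨k, hk, rfl⟩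
      have h3 : k - w ∈ M + (2 : ℝ) • (-T) := by rw [h2]; exact ⟨k, hk, rfl⟩
      obtain ⟨m, hm, _, ⟨t, ht, rfl⟩, he⟩ := h3
      have he' : m + (2 : ℝ) • t = k - w := he
      refine ⟨m, hm, _, ⟨-t, ht, rfl⟩, ?_⟩
      show m + ((2 : ℝ) • w - (2 : ℝ) • (-t)) = k + w
      have : k = m + (2 : ℝ) • t + w := by rw [he']; abel
      rw [this]
      module
    · rintro _ ⟨m, hm, _, ⟨t, ht, rfl⟩, rfl⟩
      have h3 : m + (2 : ℝ) • (-t) ∈ (fun x => x - w) '' K := by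
        rw [← h2]; exact ⟨m, hm, _, ⟨-t, by simpa using ht, rfl⟩, rfl⟩
      obtain ⟨k, hk, he⟩ := h3
      have he' : k - w = m + (2 : ℝ) • (-t) := he
      refine ⟨k, hk, ?_⟩
      show k + w = m + ((2 : ℝ) • w - (2 : ℝ) • t)
      have : k = m + (2 : ℝ) • (-t) + w := by rw [← he']; abel
      rw [this]
      module
  have hTi : IsCompact ((fun x => (2 : ℝ) • w - (2 : ℝ) • x) '' T) := hT.image (by fun_prop)
  have hTic : Convex ℝ ((fun x => (2 : ℝ) • w - (2 : ℝ) • x) '' T) := by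
    rintro _ ⟨x, hx, rfl⟩ _ ⟨y, hy, rfl⟩ a b ha hb hab
    refine ⟨a • x + b • y, hTc hx hy ha hb hab, ?_⟩
    show (2 : ℝ) • w - (2 : ℝ) • (a • x + b • y) =
      a • ((2 : ℝ) • w - (2 : ℝ) • x) + b • ((2 : ℝ) • w - (2 : ℝ) • y)
    have hb' : b = 1 - a := by linarith
    rw [hb']
    module
  have e2 := cancel hM hMn (hT.smul 2) (hTc.smul 2) hTi hTic e1
  refine ⟨w, Set.Subset.antisymm (fun x hx => ?_) ?_⟩
  · have h3 : (2 : ℝ) • x ∈ (fun x => (2 : ℝ) • w - (2 : ℝ) • x) '' T := by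
      rw [← e2]; exact ⟨x, hx, rfl⟩
    obtain ⟨t, ht, he⟩ := h3
    refine ⟨t, ht, smul_right_injective _ (two_ne_zero' ℝ) ?_⟩
    show (2 : ℝ) • (w - t) = (2 : ℝ) • x
    rw [smul_sub]
    exact he
  · rintro _ ⟨t, ht, rfl⟩
    have h3 : (2 : ℝ) • w - (2 : ℝ) • t ∈ (2 : ℝ) • T := by rw [e2]; exact ⟨t, ht, rfl⟩
    obtain ⟨x, hx, he⟩ := h3
    have he' : (2 : ℝ) • x = (2 : ℝ) • (w - t) := by rw [smul_sub]; exact he
    have : x = w - t := smul_right_injective _ (two_ne_zero' ℝ) he'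
    show w - t ∈ T
    rwa [← this]

theorem result : ∀ δ : Set (Fin 3 → ℝ) → ℝ≥0∞, δ = dL ∨ δ = dT →
    (∀ K, Body K → δ K = mn δ → LocalMin δ K) ∧
    ∀ K, Body K → LocalMin δ K →
      (∀ K₁ K₂ : Set (Fin 3 → ℝ), IsCompact K₁ → Convex ℝ K₁ → IsCompact K₂ → Convex ℝ K₂ →
        K₁ - K₁ = K₂ - K₂ → K = (1 / 2 : ℝ) • K₁ + (1 / 2 : ℝ) • K₂ →
        ∃ w, K₁ = (fun x => x + w) '' K ∧ K₂ = (fun x => x - w) '' K) ∧
      (∀ M T : Set (Fin 3 → ℝ), IsCompact M → Convex ℝ M → IsCompact T → Convex ℝ T →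
        K = M + (T - T) → ∃ z, T = (fun x => z - x) '' T) := by
  intro δ hδ
  have hsc : Scale δ := by
    rcases hδ with rfl | rfl
    · exact scale_dL
    · exact scale_dT
  have h0 : ∀ K, Body K → δ K ≠ 0 := by
    intro K hK
    rcases hδ with rfl | rfl
    · exact (dL_pos hK).ne'
    · exact ((dL_pos hK).trans_le (dL_le_dT K)).ne'
  have ht : ∀ K, Body K → δ K ≠ ∞ := by
    intro K hK
    rcases hδ with rfl | rfl
    · exact (dL_lt_top hK).ne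
    · exact (lt_of_le_of_lt (dT_le_one hK) ENNReal.one_lt_top).ne
  refine ⟨fun K hK h => ⟨1, one_pos, fun A hA _ _ => ?_⟩, fun K hK hmin => ⟨?_, ?_⟩⟩
  · rw [h]
    exact iInf₂_le A hA
  · intro K₁ K₂ h1 h1c h2 h2c hd hm
    exact main hsc hK h1 h1c h2 h2c (h0 K hK) (ht K hK) hd hm hmin
  · intro M T hM hMc hT hTc h
    exact summand hsc hK (h0 K hK) (ht K hK) hmin hM hMc hT hTc h

end Pool.Agent.Results.MP_3d065d_co.ExtremeBodies
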