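import Pool.Agent.TH219.DL.TUp
import Pool.Agent.H349R2.Tet.Final3

/-!
# Reflected copies at most double the packing density

For every convex body `K` in `ℝ³`: `δ_{L*}(K) ≤ 2 δ_L(K)` and `δ_{T*}(K) ≤ 2 δ_T(K)`. Hence
`m_{L*} ≤ 2 m_L`, `m_{T*} ≤ 2 m_T ≤ 4/5`, and, since tetrahedra do not minimise `δ_L`,
`m_{L*} < 36/49 = 0.7346...`.
-/

namespace Pool.Agent.Results.MP_3d065d_co.FactorTwo

open MeasureTheory Filter
open scoped ENNReal
open Pool.Agent.H349R2.Tet Pool.Agent.TH219.DL

theorem limsup_add_le' (f g : ℝ → ℝ≥0∞) :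
    limsup (fun r => f r + g r) atTop ≤ limsup f atTop + limsup g atTop := by
  rcases eq_or_ne (limsup f atTop) ∞ with hf | hf
  · rw [hf, top_add]; exact le_top
  rcases eq_or_ne (limsup g atTop) ∞ with hg | hg
  · rw [hg, add_top]; exact le_top
  refine ENNReal.le_of_forall_pos_le_add fun ε hε _ => ?_
  have hε2 : (ε / 2 : ℝ≥0∞) ≠ 0 := (ENNReal.half_pos (by exact_mod_cast hε.ne')).ne'
  have h1 : ∀ᶠ r in atTop, f r < limsup f atTop + ε / 2 :=
    eventually_lt_of_limsup_lt (ENNReal.lt_add_right hf hε2)
  have h2 : ∀ᶠ r in atTop, g r < limsup g atTop + ε / 2 :=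
    eventually_lt_of_limsup_lt (ENNReal.lt_add_right hg hε2)
  refine limsup_le_of_le (by isBoundedDefault) ?_
  filter_upwards [h1, h2] with r h1 h2
  calc f r + g r ≤ (limsup f atTop + ε / 2) + (limsup g atTop + ε / 2) := add_le_add h1.le h2.le
    _ = limsup f atTop + limsup g atTop + (ε / 2 + ε / 2) := by ring
    _ = _ := by rw [ENNReal.add_halves]

/-- the members with index in `S` and first coordinate `s` -/
def part (S : Set (Bool × V)) (s : Bool) : Set (Bool × V) := {p | p ∈ S ∧ p.1 = s}

theorem den_split (K : Set V) (S : Set (Bool × V)) :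
    den K S ≤ den K (part S false) + den K (part S true) := by
  unfold den
  refine le_trans ?_ (limsup_add_le' _ _)
  apply limsup_le_limsup
  · apply Eventually.of_forall
    intro r
    show _ ≤ _ / _ + _ / _
    rw [← ENNReal.add_div]
    apply ENNReal.div_le_div_right
    let f : part S false ⊕ part S true → S := fun s =>
      match s with
      | Sum.inl u => ⟨u.1, u.2.1⟩
      | Sum.inr u => ⟨u.1, u.2.1⟩
    have hsur : Function.Surjective f := by
      rintro ⟨⟨s, c⟩, hp⟩
      cases s
      · exact ⟨Sum.inl ⟨(false, c), hp, rfl⟩, rfl⟩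
      · exact ⟨Sum.inr ⟨(true, c), hp, rfl⟩, rfl⟩
    calc ∑' p : S, volume (mem K p.1 ∩ Bl r)
        ≤ ∑' s : part S false ⊕ part S true, volume (mem K (f s).1 ∩ Bl r) :=
          ENNReal.tsum_le_tsum_comp_of_surjective hsur (fun p : S => volume (mem K p.1 ∩ Bl r))
      _ = _ := by
          rw [Summable.tsum_sum (f := fun s => volume (mem K (f s).1 ∩ Bl r))
            ENNReal.summable ENNReal.summable]
  · exact Filter.isCobounded_le_of_bot
  · exact Filter.isBounded_le_of_top

theorem bl_neg_set (r : ℝ) : (fun x : V => -x) ⁻¹' Bl r = Bl r := by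
  ext x
  simp [Bl]

theorem mem_neg (K : Set V) (c : V) : (fun x : V => -x) ⁻¹' mem K (true, c) = mem K (false, -c) := by
  ext x
  simp only [mem, Set.mem_preimage, Set.mem_image, if_true]
  constructor
  · rintro ⟨y, hy, h⟩
    refine ⟨y, hy, ?_⟩
    simp only [Bool.false_eq_true, if_false]
    have : x = -(-y + c) := by rw [h, neg_neg]
    rw [this]; abel
  · rintro ⟨y, hy, h⟩
    refine ⟨y, hy, ?_⟩
    simp only [Bool.false_eq_true, if_false] at h
    rw [← h]; abel

theorem vol_neg (K : Set V) (c : V) (r : ℝ) :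
    volume (mem K (true, c) ∩ Bl r) = volume (mem K (false, -c) ∩ Bl r) := by
  rw [← mem_neg, ← bl_neg_set r, ← Set.preimage_inter, bl_neg_set r]
  exact (Measure.measure_preimage_neg (volume : Measure V) _).symm

theorem disj_neg {K : Set V} {c d : V}
    (h : Disjoint (interior (mem K (true, c))) (interior (mem K (true, d)))) :
    Disjoint (interior (mem K (false, -c))) (interior (mem K (false, -d))) := by
  rw [interior_mem, interior_mem] at h ⊢
  rw [← mem_neg, ← mem_neg]
  exact h.preimage _

theorem den_true (K : Set V) {S : Set (Bool × V)} (hS : IsPack K S) (ht : ∀ p ∈ S, p.1 = true) :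
    den K S ≤ dT K := by
  let S' : Set (Bool × V) := {p | p.1 = false ∧ (true, -p.2) ∈ S}
  have h1 : IsPack K S' := by
    rintro ⟨s, c⟩ ⟨hs, hc⟩ ⟨s', c'⟩ ⟨hs', hc'⟩ hne
    have hs : s = false := hs
    have hs' : s' = false := hs'
    subst hs hs'
    have h := hS _ hc _ hc' (fun e => hne (by
      have := congrArg Prod.snd e
      simp only [neg_inj] at this
      rw [this]))
    have h2 := disj_neg h
    simpa using h2
  have h2 : den K S = den K S' := by
    unfold den
    congr 1
    funext r
    congr 1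
    let e : S ≃ S' :=
      { toFun := fun u => ⟨(false, -u.1.2), rfl, by
          have h3 := ht u.1 u.2
          have h4 : u.1 = (true, u.1.2) := Prod.ext h3 rfl
          show (true, - -u.1.2) ∈ S
          rw [neg_neg, ← h4]
          exact u.2⟩
        invFun := fun p => ⟨(true, -p.1.2), p.2.2⟩
        left_inv := fun u => by
          apply Subtype.ext
          have h3 := ht u.1 u.2
          show (true, - -u.1.2) = u.1
          rw [neg_neg]
          exact Prod.ext h3.symm rfl
        right_inv := fun p => by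
          apply Subtype.ext
          have : p.1.1 = false := p.2.1
          show (false, - -p.1.2) = p.1
          rw [neg_neg]
          exact Prod.ext this.symm rfl }
    rw [← e.tsum_eq]
    apply tsum_congr
    intro u
    show _ = volume (mem K (false, -u.1.2) ∩ Bl r)
    rw [← vol_neg]
    have h3 := ht u.1 u.2
    have h4 : u.1 = (true, u.1.2) := Prod.ext h3 rfl
    rw [← h4]
  rw [h2]
  exact le_iSup₂_of_le S' ⟨fun p hp => hp.1, h1⟩ le_rfl

theorem IsPack.part {K : Set V} {S : Set (Bool × V)} (h : IsPack K S) (s : Bool) :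
    IsPack K (part S s) := fun p hp q hq => h p hp.1 q hq.1

theorem dTs_le (K : Set V) : dTs K ≤ 2 * dT K := by
  unfold dTs
  refine iSup₂_le fun S hS => ?_
  rw [two_mul]
  refine (den_split K S).trans (add_le_add ?_ ?_)
  · exact le_iSup₂_of_le (part S false) ⟨fun p hp => hp.2, IsPack.part hS false⟩ le_rfl
  · exact den_true K (IsPack.part hS true) fun p hp => hp.2

theorem dLs_le {K : Set V} (hK : IsCompact K) : dLs K ≤ 2 * dL K := by
  unfold dLs
  refine iSup_le fun v => iSup₂_le fun b hb => ?_
  obtain ⟨hb, hS⟩ := hb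
  rw [two_mul]
  have h0 : part (famLs v b) false = famL b := by
    ext ⟨s, c⟩
    constructor
    · rintro ⟨h | h, h'⟩
      · exact h
      · have h1 : s = true := h.1
        have h2 : s = false := h'
        rw [h1] at h2
        exact absurd h2 (by simp)
    · rintro ⟨h, h'⟩
      exact ⟨Or.inl ⟨h, h'⟩, h⟩
  have hp : LinearIndependent ℝ b ∧ IsPack K (famL b) :=
    ⟨hb, h0 ▸ IsPack.part hS false⟩
  have h1 : den K (famL b) ≤ dL K := le_iSup₂_of_le b hp le_rfl
  have h2 : den K (part (famLs v b) true) = den K (famL b) := by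
    rw [den_famL, dens_eq b hb K hK, ← vol_rfl hK.measurableSet v,
      ← dens_eq b hb _ (rfl_compact hK v)]
    unfold den dens
    congr 1
    funext r
    congr 1
    let e : lat b ≃ part (famLs v b) true :=
      { toFun := fun u => ⟨(true, v + u.1), Or.inr ⟨rfl, u.1, u.2, rfl⟩, rfl⟩
        invFun := fun p => ⟨p.1.2 - v, by
          obtain ⟨⟨s, c⟩, h | h, h'⟩ := p
          · have h1 : s = false := h.1
            have h2 : s = true := h'
            rw [h1] at h2
            exact absurd h2 (by simp)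
          · obtain ⟨-, u, hu, hc⟩ := h
            have hc : c = v + u := hc
            show c - v ∈ lat b
            rw [hc, add_sub_cancel_left]
            exact hu⟩
        left_inv := fun u => by
          apply Subtype.ext
          show v + u.1 - v = u.1
          abel
        right_inv := fun p => by
          apply Subtype.ext
          have : p.1.1 = true := p.2.2
          show (true, v + (p.1.2 - v)) = p.1
          refine Prod.ext this.symm ?_
          show v + (p.1.2 - v) = p.1.2
          abel }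
    rw [← e.tsum_eq]
    apply tsum_congr
    intro u
    show volume (mem K (true, v + u.1) ∩ Bl r) = _
    rw [mem_true]
  have h3 := den_split K (famLs v b)
  rw [h0, h2] at h3
  exact h3.trans (add_le_add h1 h1)

theorem result :
    (∀ K : Set (Fin 3 → ℝ), Body K → dLs K ≤ 2 * dL K ∧ dTs K ≤ 2 * dT K) ∧
    mn dLs ≤ 2 * mn dL ∧ mn dTs ≤ 2 * mn dT ∧ mn dTs ≤ ENNReal.ofReal (4 / 5) ∧
    mn dLs < ENNReal.ofReal (36 / 49) := by
  have h2 : (2 : ℝ≥0∞) = ENNReal.ofReal 2 := by norm_num
  refine ⟨fun K hK => ⟨dLs_le hK.1, dTs_le K⟩, ?_, ?_, ?_, ?_⟩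
  · unfold mn
    rw [ENNReal.mul_iInf_of_ne (by norm_num) (by norm_num)]
    refine le_iInf fun K => ?_
    rw [ENNReal.mul_iInf_of_ne (by norm_num) (by norm_num)]
    exact le_iInf fun hK => (iInf₂_le K hK).trans (dLs_le hK.1)
  · unfold mn
    rw [ENNReal.mul_iInf_of_ne (by norm_num) (by norm_num)]
    refine le_iInf fun K => ?_
    rw [ENNReal.mul_iInf_of_ne (by norm_num) (by norm_num)]
    exact le_iInf fun hK => (iInf₂_le K hK).trans (dTs_le K)
  · refine (iInf₂_le T T_body).trans ((dTs_le T).trans ?_)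
    refine (mul_le_mul_right dT_T 2).trans (le_of_eq ?_)
    rw [h2, ← ENNReal.ofReal_mul (by norm_num)]
    norm_num
  · obtain ⟨p, hp⟩ : ∃ p : Fin 4 → V, AffineIndependent ℝ p := by
      have h := AffineBasis.exists_affineBasis_of_finiteDimensional (k := ℝ) (V := V) (P := V)
        (ι := Fin 4) (by simp)
      obtain ⟨b⟩ := h
      exact ⟨b, b.ind⟩
    obtain ⟨A, hA1, hA2, hA3, -, -, hA4⟩ := near_tetra p hp (1 / 10 ^ 15) (by norm_num) le_rfl
    refine lt_of_le_of_lt ((iInf₂_le A ⟨hA1, hA2, hA3⟩).trans (dLs_le hA1)) ?_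
    rw [dL_eq]
    refine lt_of_le_of_lt (mul_le_mul_right hA4 2) ?_
    rw [h2, ← ENNReal.ofReal_mul (by norm_num), ENNReal.ofReal_lt_ofReal_iff (by norm_num)]
    norm_num

end Pool.Agent.Results.MP_3d065d_co.FactorTwo
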